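import Mathlib
import Pool.Agent.Helper459.KN

set_option autoImplicit false

/-!
# A pseudoconvex domain of finite type in `ℂ²` which is not locally convexifiable

`Om = {(z, w) : Re w + |w|² + |z|⁸ + (15/7) |z|² Re z⁶ + |z|¹⁰ < 0}` (of Kohn-Nirenberg type) is a bounded
pseudoconvex domain with smooth boundary of finite type. At the boundary point `0` there is no
neighbourhood `U` with an injective holomorphic map on `U ∩ Om` whose image is convex.

Idea of the proof. Suppose `Φ` is such a map, `Ψ` its inverse. The mean of two points of `U ∩ Om` is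
`Ψ ((Φ x + Φ y) / 2)`. The dilations `(z, w) ↦ (t z, t⁸ w)` with `t` small give the same structure on
domains which are close to the model `{Re w + P(z) < 0}`, and are symmetric under `(z, w) ↦ (-z, w)`
on large balls. Start with a holomorphic disc `(z, w)` in the model with `z(0) = 0`, `w(0) = -A` and
`|w'(0)| > 2 A`. Taking the mean of the disc with its mirror image doubles the order of vanishing of
`z` at `0` and keeps `w(0)` and `w'(0)`. After many steps `z` is very small on a slightly smaller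
disc, hence `Re w` is at most a very small number there, and the Borel-Caratheodory estimate
gives `|w'(0)| ≤ 2 A` in the limit, a contradiction.
-/

open Complex Set Filter Topology Metric Asymptotics

namespace Pool.Agent.Results.MP_08f711_an.NotConvexifiable

open Pool.Agent.Helper459.KN

/-- `Ω` is pseudoconvex: there is a continuous plurisubharmonic exhaustion function `u` of `Ω`,
that is, `u` is continuous on `Ω`, satisfies the sub mean value inequality on every closed complex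
disc `{a + l b : |l| ≤ 1}` contained in `Ω`, and has compact sublevel sets in `Ω`. -/
def IsPseudoconvex (Ω : Set (ℂ × ℂ)) : Prop :=
  ∃ u : ℂ × ℂ → ℝ, ContinuousOn u Ω ∧
    (∀ a b : ℂ × ℂ, (∀ l : ℂ, ‖l‖ ≤ 1 → a + l • b ∈ Ω) →
      u a ≤ Real.circleAverage (fun l : ℂ => u (a + l • b)) 0 1) ∧
    ∀ c : ℝ, IsCompact {x | x ∈ Ω ∧ u x ≤ c}

/-- `r` is a smooth local defining function of `Ω` on the neighbourhood `V` of the boundary
point `p`. -/
def IsLocalDefiningFunction (Ω : Set (ℂ × ℂ)) (p : ℂ × ℂ) (V : Set (ℂ × ℂ))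
    (r : ℂ × ℂ → ℝ) : Prop :=
  IsOpen V ∧ p ∈ V ∧ ContDiffOn ℝ (⊤ : ℕ∞) r V ∧ (∀ x ∈ V, fderiv ℝ r x ≠ 0) ∧ r p = 0 ∧
    ∀ x ∈ V, (x ∈ Ω ↔ r x < 0)

/-- `p` is a boundary point of finite type (D'Angelo): the boundary is smooth near `p` and the
orders of contact at `p` of nonconstant holomorphic curves with the boundary are bounded. Here `m`
is the exact order of vanishing of `γ - p` at `0`, and `k` is any order to which `r ∘ γ` vanishes
at `0`. -/
def IsFiniteTypeAt (Ω : Set (ℂ × ℂ)) (p : ℂ × ℂ) : Prop :=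
  ∃ (V : Set (ℂ × ℂ)) (r : ℂ × ℂ → ℝ), IsLocalDefiningFunction Ω p V r ∧
    ∃ N : ℕ, ∀ γ : ℂ → ℂ × ℂ, AnalyticAt ℂ γ 0 → γ 0 = p →
      ∀ m : ℕ, (fun l => γ l - p) =O[𝓝 0] (fun l : ℂ => l ^ m) →
        ¬ ((fun l => γ l - p) =O[𝓝 0] (fun l : ℂ => l ^ (m + 1))) →
        ∀ k : ℕ, (fun l => r (γ l)) =O[𝓝 0] (fun l : ℂ => ‖l‖ ^ k) → k ≤ N * m

/-- `Ω` is locally convexifiable at `p` with continuous boundary values: there are an open
neighbourhood `U` of `p` and an injective holomorphic map `Φ` on `U ∩ Ω`, continuous up to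
`U ∩ closure Ω`, such that `Φ (U ∩ Ω)` is convex. -/
def IsLocallyConvexifiableAt (Ω : Set (ℂ × ℂ)) (p : ℂ × ℂ) : Prop :=
  ∃ U : Set (ℂ × ℂ), IsOpen U ∧ p ∈ U ∧ ∃ Φ : ℂ × ℂ → ℂ × ℂ,
    DifferentiableOn ℂ Φ (U ∩ Ω) ∧ InjOn Φ (U ∩ Ω) ∧ ContinuousOn Φ (U ∩ closure Ω) ∧
      Convex ℝ (Φ '' (U ∩ Ω))

/-- sanity check: a convex domain is locally convexifiable at each point -/
theorem isLocallyConvexifiableAt_of_convex {Ω : Set (ℂ × ℂ)} (hΩ : Convex ℝ Ω) (p : ℂ × ℂ) :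
    IsLocallyConvexifiableAt Ω p :=
  ⟨univ, isOpen_univ, mem_univ p, id, differentiableOn_id, injOn_id _, continuousOn_id, by
    simpa using hΩ⟩

theorem KP_cont : Continuous KP := by unfold KP; fun_prop

theorem abs_re_pow_six (z : ℂ) : |(z ^ 6).re| ≤ ‖z‖ ^ 6 := by
  have := Complex.abs_re_le_norm (z ^ 6)
  rwa [norm_pow] at this

theorem QQ_ge (z : ℂ) : ‖z‖ ^ 8 * (‖z‖ ^ 2 - 8 / 7) ≤ KP z + ‖z‖ ^ 10 := by
  have := KP_ge z
  nlinarith [this]

theorem re_add_sq (w : ℂ) : w.re + ‖w‖ ^ 2 = ‖w + 1 / 2‖ ^ 2 - 1 / 4 := by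
  rw [Complex.sq_norm, Complex.sq_norm, Complex.normSq_apply, Complex.normSq_apply]
  simp
  ring

theorem norm_fst_lt {x : ℂ × ℂ} (hx : x ∈ Om) : ‖x.1‖ < 2 := by
  by_contra h
  push Not at h
  have hx' : rr x < 0 := hx
  unfold rr at hx'
  have h1 := QQ_ge x.1
  have h2 := re_add_sq x.2
  have h3 : 0 ≤ ‖x.2 + 1 / 2‖ ^ 2 := by positivity
  have h4 : (2 : ℝ) ^ 8 ≤ ‖x.1‖ ^ 8 := by gcongr
  have h5 : (2 : ℝ) ^ 2 ≤ ‖x.1‖ ^ 2 := by gcongr
  have h6 : (2 : ℝ) ^ 8 * 1 ≤ ‖x.1‖ ^ 8 * (‖x.1‖ ^ 2 - 8 / 7) := by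
    apply mul_le_mul h4 _ (by norm_num) (by positivity)
    linarith
  linarith

theorem norm_snd_lt {x : ℂ × ℂ} (hx : x ∈ Om) : ‖x.2‖ < 20 := by
  have h0 := norm_fst_lt hx
  have hx' : rr x < 0 := hx
  unfold rr at hx'
  have h1 := QQ_ge x.1
  have h4 : ‖x.1‖ ^ 8 ≤ (2 : ℝ) ^ 8 := by gcongr
  have h5 : -(8 / 7) * (2 : ℝ) ^ 8 ≤ ‖x.1‖ ^ 8 * (‖x.1‖ ^ 2 - 8 / 7) := by
    have : 0 ≤ ‖x.1‖ ^ 8 * ‖x.1‖ ^ 2 := by positivity
    nlinarith
  have h6 : -‖x.2‖ ≤ x.2.re := (abs_le.mp (Complex.abs_re_le_norm x.2)).1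
  nlinarith [norm_nonneg x.2]

theorem Om_isBounded : Bornology.IsBounded Om := by
  apply (Metric.isBounded_closedBall (x := (0 : ℂ × ℂ)) (r := 20)).subset
  intro x hx
  rw [mem_closedBall_zero_iff, Prod.norm_def]
  exact max_le (by linarith [norm_fst_lt hx]) (by linarith [norm_snd_lt hx])

theorem Om_nonempty : ((0 : ℂ), (-1/2 : ℂ)) ∈ Om := by
  show rr _ < 0
  unfold rr KP
  simp only
  have : ‖(-1/2 : ℂ)‖ = 1/2 := by rw [norm_div, norm_neg]; simp
  rw [this]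
  norm_num

theorem Om_isConnected : IsConnected Om := by
  refine ⟨⟨_, Om_nonempty⟩, ?_⟩
  apply isPreconnected_of_forall ((0 : ℂ), (-1/2 : ℂ))
  intro y hy
  refine ⟨(fun s : ℝ => ((s : ℂ) * y.1, -1/2 + (s : ℂ) ^ 4 * (y.2 + 1/2))) '' Icc 0 1, ?_, ?_, ?_, ?_⟩
  · rintro _ ⟨s, ⟨hs0, hs1⟩, rfl⟩
    have hy' : rr y < 0 := hy
    show rr _ < 0
    unfold rr at hy' ⊢
    simp only
    have e1 := re_add_sq y.2
    have e2 := re_add_sq (-1/2 + (s : ℂ) ^ 4 * (y.2 + 1/2))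
    have e3 : (-1/2 + (s : ℂ) ^ 4 * (y.2 + 1/2)) + 1/2 = (s : ℂ) ^ 4 * (y.2 + 1/2) := by ring
    rw [e3, norm_mul, norm_pow, Complex.norm_real, Real.norm_eq_abs, abs_of_nonneg hs0, mul_pow] at e2
    have e4 : KP ((s : ℂ) * y.1) = s ^ 8 * KP y.1 := by
      unfold KP
      rw [norm_mul, Complex.norm_real, Real.norm_eq_abs, abs_of_nonneg hs0]
      have : (((s : ℂ) * y.1) ^ 6).re = s ^ 6 * (y.1 ^ 6).re := by
        rw [mul_pow, ← Complex.ofReal_pow, Complex.re_ofReal_mul]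
      rw [this]
      ring
    have e5 : ‖(s : ℂ) * y.1‖ ^ 10 = s ^ 10 * ‖y.1‖ ^ 10 := by
      rw [norm_mul, Complex.norm_real, Real.norm_eq_abs, abs_of_nonneg hs0, mul_pow]
    rw [e2, e4, e5]
    have h10 : s ^ 10 * ‖y.1‖ ^ 10 ≤ s ^ 8 * ‖y.1‖ ^ 10 := by
      apply mul_le_mul_of_nonneg_right _ (by positivity)
      exact pow_le_pow_of_le_one hs0 hs1 (by norm_num)
    have h8 : s ^ 8 ≤ 1 := pow_le_one₀ hs0 hs1
    have h80 : 0 ≤ s ^ 8 := by positivity
    have hA : ‖y.2 + 1/2‖ ^ 2 + KP y.1 + ‖y.1‖ ^ 10 < 1/4 := by linarith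
    have hB : s ^ 8 * (‖y.2 + 1/2‖ ^ 2 + KP y.1 + ‖y.1‖ ^ 10) < 1/4 := by
      rcases le_or_gt 0 (‖y.2 + 1/2‖ ^ 2 + KP y.1 + ‖y.1‖ ^ 10) with h | h
      · nlinarith
      · nlinarith
    nlinarith [hB, h10]
  · exact ⟨0, by simp, by simp⟩
  · refine ⟨1, by simp, ?_⟩
    ext
    · simp
    · simp only [Complex.ofReal_one, one_pow, one_mul]
      ring
  · apply isPreconnected_Icc.image
    apply Continuous.continuousOn
    fun_prop

theorem rr_submean (a b : ℂ × ℂ) :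
    rr a ≤ Real.circleAverage (fun l : ℂ => rr (a + l • b)) 0 1 := by
  have hfun : (fun l : ℂ => rr (a + l • b)) =
      (fun l : ℂ => ((a.2 + l * b.2).re + QQ 1 0 0 0 (a.2 + l * b.2)) + QQ 0 1 1 (15/7) (a.1 + l * b.1)) := by
    funext l
    unfold rr QQ KP
    simp
    ring
  have hd1 : DiffContOnCl ℂ (fun l : ℂ => a.1 + l * b.1) (ball 0 1) := by
    apply Differentiable.diffContOnCl
    fun_prop
  have hd2 : DiffContOnCl ℂ (fun l : ℂ => a.2 + l * b.2) (ball 0 1) := by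
    apply Differentiable.diffContOnCl
    fun_prop
  have hQ : ∀ p q r s : ℝ, Continuous (QQ p q r s) := by
    intro p q r s
    unfold QQ
    fun_prop
  have h1 := submean (a := 1) (b := 0) (c := 0) (e := 0) (by norm_num) (by norm_num) le_rfl one_pos hd2
  have h2 := submean (a := 0) (b := 1) (c := 1) (e := 15/7) le_rfl (by rw [abs_of_pos (by norm_num)]; norm_num) (by norm_num) one_pos hd1
  have h3 : Real.circleAverage (fun l : ℂ => (a.2 + l * b.2).re) 0 1 = a.2.re := by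
    have hm := DiffContOnCl.circleAverage (f := fun l : ℂ => a.2 + l * b.2) (c := 0) (R := 1) (by simpa using hd2)
    have hc := ContinuousLinearMap.circleAverage_comp_comm Complex.reCLM (f := fun l : ℂ => a.2 + l * b.2) (c := 0) (R := 1)
      (ContinuousOn.circleIntegrable' (by fun_prop))
    have : (⇑Complex.reCLM ∘ fun l : ℂ => a.2 + l * b.2) = (fun l : ℂ => (a.2 + l * b.2).re) := rfl
    rw [this] at hc
    rw [hc, hm]
    simp
  rw [hfun]
  have c1 : Continuous (fun l : ℂ => (a.2 + l * b.2).re) := by fun_prop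
  have c2 : Continuous (fun l : ℂ => QQ 1 0 0 0 (a.2 + l * b.2)) := (hQ _ _ _ _).comp (by fun_prop)
  have c3 : Continuous (fun l : ℂ => QQ 0 1 1 (15/7) (a.1 + l * b.1)) := (hQ _ _ _ _).comp (by fun_prop)
  have i1 : CircleIntegrable (fun l : ℂ => (a.2 + l * b.2).re) 0 1 := ContinuousOn.circleIntegrable' c1.continuousOn
  have i2 : CircleIntegrable (fun l : ℂ => QQ 1 0 0 0 (a.2 + l * b.2)) 0 1 := ContinuousOn.circleIntegrable' c2.continuousOn
  have i3 : CircleIntegrable (fun l : ℂ => QQ 0 1 1 (15/7) (a.1 + l * b.1)) 0 1 := ContinuousOn.circleIntegrable' c3.continuousOn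
  have i12 : CircleIntegrable (fun l : ℂ => (a.2 + l * b.2).re + QQ 1 0 0 0 (a.2 + l * b.2)) 0 1 := ContinuousOn.circleIntegrable' (c1.add c2).continuousOn
  rw [Real.circleAverage_fun_add i12 i3, Real.circleAverage_fun_add i1 i2, h3]
  have e0 : rr a = a.2.re + QQ 1 0 0 0 (a.2 + 0 * b.2) + QQ 0 1 1 (15/7) (a.1 + 0 * b.1) := by
    unfold rr QQ KP
    simp
    ring
  rw [e0]
  linarith [h1, h2]

theorem tangent_ineq {t t0 : ℝ} (ht : t < 0) (h0 : t0 < 0) :
    -t0⁻¹ + (t - t0) * (t0 ^ 2)⁻¹ ≤ -t⁻¹ := by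
  have h : -t⁻¹ - (-t0⁻¹ + (t - t0) * (t0 ^ 2)⁻¹) = (t - t0) ^ 2 * (-t)⁻¹ * (t0 ^ 2)⁻¹ := by
    have := ht.ne
    have := h0.ne
    field_simp
    ring
  have h2 : 0 ≤ (t - t0) ^ 2 * (-t)⁻¹ * (t0 ^ 2)⁻¹ := by
    have : 0 < -t := by linarith
    positivity
  linarith

theorem Om_pseudoconvex : IsPseudoconvex Om := by
  refine ⟨fun x => -(rr x)⁻¹, ?_, ?_, ?_⟩
  · apply ContinuousOn.neg
    apply ContinuousOn.inv₀ rr_cont.continuousOn
    intro x hx
    exact ne_of_lt hx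
  · intro a b hab
    have ha : rr a < 0 := by
      have h0 := hab 0 (by simp)
      rw [zero_smul, add_zero] at h0
      exact h0
    have hl : ∀ l : ℂ, ‖l‖ ≤ 1 → rr (a + l • b) < 0 := fun l hl => hab l hl
    have hcont : Continuous (fun l : ℂ => rr (a + l • b)) := rr_cont.comp (by fun_prop)
    have i1 : CircleIntegrable (fun l : ℂ => -(rr (a + l • b))⁻¹) 0 1 := by
      apply ContinuousOn.circleIntegrable'
      apply ContinuousOn.neg
      apply ContinuousOn.inv₀ hcont.continuousOn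
      intro l hl'
      apply ne_of_lt
      apply hl
      rw [mem_sphere_zero_iff_norm] at hl'
      rw [hl']
      simp
    have i2 : CircleIntegrable (fun l : ℂ => -(rr a)⁻¹ + (rr (a + l • b) - rr a) * ((rr a) ^ 2)⁻¹) 0 1 := by
      apply ContinuousOn.circleIntegrable'
      apply Continuous.continuousOn
      fun_prop
    have hmono := Real.circleAverage_mono i2 i1 (by
      intro l hl'
      rw [mem_sphere_zero_iff_norm] at hl'
      apply tangent_ineq _ ha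
      apply hl
      rw [hl']
      simp)
    have iR : CircleIntegrable (fun l : ℂ => rr (a + l • b)) 0 1 := ContinuousOn.circleIntegrable' hcont.continuousOn
    have heq : Real.circleAverage (fun l : ℂ => -(rr a)⁻¹ + (rr (a + l • b) - rr a) * ((rr a) ^ 2)⁻¹) 0 1 =
        -(rr a)⁻¹ + (Real.circleAverage (fun l : ℂ => rr (a + l • b)) 0 1 - rr a) * ((rr a) ^ 2)⁻¹ := by
      have e : (fun l : ℂ => -(rr a)⁻¹ + (rr (a + l • b) - rr a) * ((rr a) ^ 2)⁻¹) =
          fun l : ℂ => (-(rr a)⁻¹ - rr a * ((rr a) ^ 2)⁻¹) + ((rr a) ^ 2)⁻¹ • rr (a + l • b) := by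
        funext l
        simp only [smul_eq_mul]
        ring
      rw [e, Real.circleAverage_fun_add (circleIntegrable_const _ _ _) (by
        apply ContinuousOn.circleIntegrable'
        apply Continuous.continuousOn
        fun_prop), Real.circleAverage_const, Real.circleAverage_fun_smul]
      simp only [smul_eq_mul]
      ring
    rw [heq] at hmono
    have hs := rr_submean a b
    have : 0 ≤ (Real.circleAverage (fun l : ℂ => rr (a + l • b)) 0 1 - rr a) * ((rr a) ^ 2)⁻¹ := by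
      apply mul_nonneg (by linarith) (by positivity)
    simp only
    linarith
  · intro c
    rcases le_or_gt c 0 with hc | hc
    · convert isCompact_empty (X := ℂ × ℂ)
      ext x
      simp only [mem_ofPred_eq, mem_empty_iff_false, iff_false, not_and, not_le]
      intro hx
      have hx' : rr x < 0 := hx
      have : (rr x)⁻¹ < 0 := inv_lt_zero.mpr hx'
      linarith
    · have : {x | x ∈ Om ∧ -(rr x)⁻¹ ≤ c} = {x | rr x ≤ -c⁻¹} := by
        ext x
        simp only [mem_ofPred_eq]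
        constructor
        · rintro ⟨hx, h⟩
          have hx' : 0 < -rr x := by have : rr x < 0 := hx; linarith
          have h2 : (-rr x)⁻¹ ≤ c := by rw [inv_neg]; exact h
          have h3 : c⁻¹ ≤ -rr x := by
            rw [inv_le_comm₀ hx' hc] at h2
            exact h2
          linarith
        · intro h
          have hc' : 0 < c⁻¹ := by positivity
          have hx : rr x < 0 := by linarith
          refine ⟨hx, ?_⟩
          have hx' : 0 < -rr x := by linarith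
          have h3 : c⁻¹ ≤ -rr x := by linarith
          rw [← inv_le_comm₀ hx' hc, inv_neg] at h3
          exact h3
      rw [this]
      apply Metric.isCompact_of_isClosed_isBounded
      · exact isClosed_le rr_cont continuous_const
      · apply Om_isBounded.subset
        intro x hx
        have hc' : 0 < c⁻¹ := by positivity
        have : rr x ≤ -c⁻¹ := hx
        show rr x < 0
        linarith

theorem zero_mem_frontier : ((0 : ℂ), (0 : ℂ)) ∈ frontier Om := by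
  rw [Om_isOpen.frontier_eq]
  constructor
  · rw [Metric.mem_closure_iff]
    intro ε hε
    refine ⟨(0, ((-(min (ε/2) (1/2)) : ℝ) : ℂ)), ?_, ?_⟩
    · show rr _ < 0
      unfold rr KP
      simp only
      rw [Complex.norm_real, Real.norm_eq_abs, sq_abs, Complex.ofReal_re]
      have h1 : 0 < min (ε/2) (1/2) := by positivity
      have h2 : min (ε/2) (1/2) ≤ 1/2 := min_le_right _ _
      rw [norm_zero]
      generalize min (ε/2) (1/2) = m at h1 h2
      norm_num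
      nlinarith
    · rw [Prod.dist_eq]
      simp only [dist_self]
      have h1 : 0 < min (ε/2) (1/2) := by positivity
      have h2 : min (ε/2) (1/2) ≤ ε/2 := min_le_left _ _
      rw [dist_comm, dist_zero_right, Complex.norm_real, Real.norm_eq_abs, abs_neg, abs_of_pos h1]
      apply max_lt hε
      linarith
  · intro h
    have h' : rr (0, 0) < 0 := h
    unfold rr KP at h'
    simp at h'

/-! ### helpers for the finite type statement -/

theorem ft_rr_eq : rr = fun x : ℂ × ℂ => x.2.re + ‖x.2‖ ^ 2 +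
    ((‖x.1‖ ^ 2) ^ 4 + 15 / 7 * (‖x.1‖ ^ 2 * (x.1 ^ 6).re)) + (‖x.1‖ ^ 2) ^ 5 := by
  funext x
  unfold rr KP
  ring

theorem ft_rr_contDiff : ContDiff ℝ (⊤ : ℕ∞) rr := by
  rw [ft_rr_eq]
  have h1 : ContDiff ℝ (⊤ : ℕ∞) (fun x : ℂ × ℂ => ‖x.1‖ ^ 2) :=
    (contDiff_norm_sq ℝ (E := ℂ)).comp contDiff_fst
  have h2 : ContDiff ℝ (⊤ : ℕ∞) (fun x : ℂ × ℂ => ‖x.2‖ ^ 2) :=
    (contDiff_norm_sq ℝ (E := ℂ)).comp contDiff_snd
  have h3 : ContDiff ℝ (⊤ : ℕ∞) (fun x : ℂ × ℂ => x.2.re) :=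
    Complex.reCLM.contDiff.comp contDiff_snd
  have h4 : ContDiff ℝ (⊤ : ℕ∞) (fun x : ℂ × ℂ => (x.1 ^ 6).re) :=
    Complex.reCLM.contDiff.comp (contDiff_fst.pow 6)
  exact ((h3.add h2).add ((h1.pow 4).add (contDiff_const.mul (h1.mul h4)))).add (h1.pow 5)

theorem ft_rr_zero {p : ℂ × ℂ} (hp : p ∈ frontier Om) : rr p = 0 := by
  have hcont : Continuous rr := ft_rr_contDiff.continuous
  have h1 : rr p ≤ 0 := by
    have hcl : closure Om ⊆ {x | rr x ≤ 0} := by
      apply closure_minimal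
      · intro x hx
        exact le_of_lt (show rr x < 0 from hx)
      · exact isClosed_le hcont continuous_const
    exact hcl hp.1
  have h2 : ¬ rr p < 0 := by
    intro h
    apply hp.2
    rw [Om_isOpen.interior_eq]
    exact h
  linarith

theorem ft_grad {p : ℂ × ℂ} (hp : rr p = 0) : fderiv ℝ rr p ≠ 0 := by
  intro h0
  have hder : ∀ v : ℂ × ℂ, HasDerivAt (fun t : ℝ => rr (p + t • v)) 0 0 := by
    intro v
    have h1 : HasFDerivAt rr (fderiv ℝ rr p) (p + (0 : ℝ) • v) := by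
      rw [zero_smul, add_zero]
      exact (ft_rr_contDiff.differentiable (by simp) p).hasFDerivAt
    have h2 : HasDerivAt (fun t : ℝ => p + t • v) v 0 := by
      have := ((hasDerivAt_id (0 : ℝ)).smul_const v).const_add p
      simpa using this
    have h3 := h1.comp_hasDerivAt (0 : ℝ) h2
    rw [h0] at h3
    exact h3
  obtain ⟨z0, w0⟩ := p
  -- w direction
  have hA : ‖w0 + 1 / 2‖ ^ 2 = 0 := by
    have h1 := hder (0, w0 + 1 / 2)
    have h2 : (fun t : ℝ => rr ((z0, w0) + t • ((0 : ℂ), w0 + 1 / 2))) =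
        fun t : ℝ => (1 + t) ^ 2 * ‖w0 + 1 / 2‖ ^ 2 + (- 1 / 4 + KP z0 + ‖z0‖ ^ 10) := by
      funext t
      have e1 : (z0, w0) + t • ((0 : ℂ), w0 + 1 / 2) = (z0, w0 + (t : ℂ) * (w0 + 1 / 2)) := by
        ext
        · simp
        · simp
          ring
      rw [e1]
      unfold rr
      simp only
      have e2 : ∀ w : ℂ, w.re + ‖w‖ ^ 2 = ‖w + 1 / 2‖ ^ 2 - 1 / 4 := by
        intro w
        rw [← Complex.normSq_eq_norm_sq, ← Complex.normSq_eq_norm_sq, Complex.normSq_apply,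
          Complex.normSq_apply]
        simp only [Complex.add_re, Complex.add_im]
        norm_num
        ring
      rw [e2]
      have e3 : w0 + (t : ℂ) * (w0 + 1 / 2) + 1 / 2 = ((1 + t : ℝ) : ℂ) * (w0 + 1 / 2) := by
        push_cast; ring
      rw [e3, norm_mul, mul_pow, Complex.norm_real, Real.norm_eq_abs, sq_abs]
      ring
    rw [h2] at h1
    have h3 : HasDerivAt (fun t : ℝ => (1 + t) ^ 2 * ‖w0 + 1 / 2‖ ^ 2 + (- 1 / 4 + KP z0 + ‖z0‖ ^ 10))
        (2 * ‖w0 + 1 / 2‖ ^ 2) 0 := by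
      have h4 : HasDerivAt (fun t : ℝ => 1 + t) 1 0 := (hasDerivAt_id (0 : ℝ)).const_add 1
      have h5 := ((h4.pow 2).mul_const (‖w0 + 1 / 2‖ ^ 2)).add_const (- 1 / 4 + KP z0 + ‖z0‖ ^ 10)
      simpa using h5
    have h4 := h3.unique h1
    linarith
  have hw : w0 = -1 / 2 := by
    have h1 : w0 + 1 / 2 = 0 := by
      rw [← norm_eq_zero]
      exact pow_eq_zero_iff (two_ne_zero) |>.mp hA
    linear_combination h1
  have hQ : KP z0 + ‖z0‖ ^ 10 = 1 / 4 := by
    have h1 : w0.re + ‖w0‖ ^ 2 + KP z0 + ‖z0‖ ^ 10 = 0 := hp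
    rw [hw] at h1
    norm_num at h1
    linarith
  have hZ : 8 * KP z0 + 10 * ‖z0‖ ^ 10 = 0 := by
    have h1 := hder (z0, 0)
    have h2 : (fun t : ℝ => rr ((z0, w0) + t • (z0, (0 : ℂ)))) =
        fun t : ℝ => (1 + t) ^ 8 * KP z0 + (1 + t) ^ 10 * ‖z0‖ ^ 10 + (w0.re + ‖w0‖ ^ 2) := by
      funext t
      have e1 : (z0, w0) + t • (z0, (0 : ℂ)) = (((1 + t : ℝ) : ℂ) * z0, w0) := by
        ext <;> simp <;> ring
      rw [e1]
      unfold rr KP
      simp only
      have e2 : ‖((1 + t : ℝ) : ℂ) * z0‖ ^ 2 = (1 + t) ^ 2 * ‖z0‖ ^ 2 := by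
        rw [norm_mul, mul_pow, Complex.norm_real, Real.norm_eq_abs, sq_abs]
      have e3 : ((((1 + t : ℝ) : ℂ) * z0) ^ 6).re = (1 + t) ^ 6 * (z0 ^ 6).re := by
        rw [mul_pow, ← Complex.ofReal_pow, Complex.re_ofReal_mul]
      have e4 : ‖((1 + t : ℝ) : ℂ) * z0‖ ^ 8 = ((1 + t) ^ 2 * ‖z0‖ ^ 2) ^ 4 := by
        rw [← e2]; ring
      have e5 : ‖((1 + t : ℝ) : ℂ) * z0‖ ^ 10 = ((1 + t) ^ 2 * ‖z0‖ ^ 2) ^ 5 := by
        rw [← e2]; ring
      rw [e4, e5, e2, e3]
      ring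
    rw [h2] at h1
    have h3 : HasDerivAt (fun t : ℝ => (1 + t) ^ 8 * KP z0 + (1 + t) ^ 10 * ‖z0‖ ^ 10 +
        (w0.re + ‖w0‖ ^ 2)) (8 * KP z0 + 10 * ‖z0‖ ^ 10) 0 := by
      have h4 : HasDerivAt (fun t : ℝ => 1 + t) 1 0 := (hasDerivAt_id (0 : ℝ)).const_add 1
      have h5 := (((h4.pow 8).mul_const (KP z0)).add ((h4.pow 10).mul_const (‖z0‖ ^ 10))).add_const
        (w0.re + ‖w0‖ ^ 2)
      simpa using h5
    exact h3.unique h1
  have h10 : 0 ≤ ‖z0‖ ^ 10 := by positivity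
  linarith

theorem ft_order {h : ℂ → ℂ} (hh : AnalyticAt ℂ h 0) {m : ℕ}
    (hm : ¬ (h =O[𝓝 0] fun l : ℂ => l ^ (m + 1))) :
    ∃ n ≤ m, ∃ c > 0, ∀ᶠ l in 𝓝 (0 : ℂ), c * ‖l‖ ^ n ≤ ‖h l‖ := by
  have hnz : ¬ ∀ᶠ z in 𝓝 (0 : ℂ), h z = 0 := by
    intro hz
    apply hm
    refine IsBigO.of_bound 1 ?_
    filter_upwards [hz] with l hl
    rw [hl, norm_zero]
    positivity
  obtain ⟨n, g, hg, hg0, hfac⟩ := hh.exists_eventuallyEq_pow_smul_nonzero_iff.mpr hnz
  have hgc : Tendsto (fun l => ‖g l‖) (𝓝 0) (𝓝 ‖g 0‖) := hg.continuousAt.norm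
  have hgp : 0 < ‖g 0‖ := norm_pos_iff.mpr hg0
  have hnm : n ≤ m := by
    by_contra hcon
    push Not at hcon
    apply hm
    refine IsBigO.of_bound (‖g 0‖ + 1) ?_
    have hb : ∀ᶠ l in 𝓝 (0 : ℂ), ‖g l‖ < ‖g 0‖ + 1 := hgc.eventually_lt_const (by linarith)
    filter_upwards [hfac, hb, ball_mem_nhds (0 : ℂ) one_pos] with l h1 h2 h3
    rw [mem_ball_zero_iff] at h3
    rw [h1, sub_zero, norm_smul, norm_pow, norm_pow]
    calc ‖l‖ ^ n * ‖g l‖ ≤ ‖l‖ ^ (m + 1) * (‖g 0‖ + 1) :=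
          mul_le_mul (pow_le_pow_of_le_one (norm_nonneg _) h3.le (by omega)) h2.le (norm_nonneg _)
            (by positivity)
      _ = _ := mul_comm _ _
  refine ⟨n, hnm, ‖g 0‖ / 2, by positivity, ?_⟩
  have hb : ∀ᶠ l in 𝓝 (0 : ℂ), ‖g 0‖ / 2 < ‖g l‖ := hgc.eventually_const_lt (by linarith)
  filter_upwards [hfac, hb] with l h1 h2
  rw [h1, sub_zero, norm_smul, norm_pow, mul_comm]
  exact mul_le_mul_of_nonneg_left h2.le (by positivity)

theorem ft_cont {h : ℂ → ℂ} {r : ℝ} (hr : 0 < r) (hh : DiffContOnCl ℂ h (ball 0 r)) :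
    ContinuousOn h (sphere 0 r) := by
  apply hh.continuousOn.mono
  rw [closure_ball _ hr.ne']
  exact sphere_subset_closedBall

theorem ft_avg_sq {h : ℂ → ℂ} {r : ℝ} (hr : 0 < r) (hh : DiffContOnCl ℂ h (ball 0 r)) :
    Real.circleAverage (fun l => ‖h l‖ ^ 2) 0 r =
      ‖h 0‖ ^ 2 + Real.circleAverage (fun l => ‖h l - h 0‖ ^ 2) 0 r := by
  have hc := ft_cont hr hh
  have hA : DiffContOnCl ℂ (fun l => (starRingEnd ℂ) (h 0) * (h l - h 0)) (ball 0 |r|) := by
    rw [abs_of_pos hr]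
    exact (hh.sub_const (h 0)).const_smul ((starRingEnd ℂ) (h 0))
  have hA0 := hA.circleAverage
  simp only [sub_self, mul_zero] at hA0
  have hi1 : CircleIntegrable (fun l => (starRingEnd ℂ) (h 0) * (h l - h 0)) 0 r :=
    ContinuousOn.circleIntegrable hr.le (by fun_prop)
  have hre : Real.circleAverage (fun l => 2 * ((starRingEnd ℂ) (h 0) * (h l - h 0)).re) 0 r = 0 := by
    have h1 := Complex.reCLM.circleAverage_comp_comm hi1
    rw [hA0, map_zero] at h1
    have h2 : Real.circleAverage (fun l => (2 : ℝ) • ((starRingEnd ℂ) (h 0) * (h l - h 0)).re) 0 r =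
        (2 : ℝ) • Real.circleAverage (fun l => ((starRingEnd ℂ) (h 0) * (h l - h 0)).re) 0 r :=
      Real.circleAverage_fun_smul
    have h3 : Real.circleAverage (fun l => ((starRingEnd ℂ) (h 0) * (h l - h 0)).re) 0 r = 0 := h1
    rw [h3, smul_zero] at h2
    exact h2
  have hi2 : CircleIntegrable (fun l => 2 * ((starRingEnd ℂ) (h 0) * (h l - h 0)).re) 0 r := by
    apply ContinuousOn.circleIntegrable hr.le
    apply continuousOn_const.mul
    apply Complex.continuous_re.comp_continuousOn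
    fun_prop
  have hi3 : CircleIntegrable (fun l => ‖h l - h 0‖ ^ 2) 0 r :=
    ContinuousOn.circleIntegrable hr.le (by fun_prop)
  have hsplit : (fun l => ‖h l‖ ^ 2) = fun l => (‖h 0‖ ^ 2 +
      2 * ((starRingEnd ℂ) (h 0) * (h l - h 0)).re) + ‖h l - h 0‖ ^ 2 := by
    funext l
    rw [← Complex.normSq_eq_norm_sq, ← Complex.normSq_eq_norm_sq, ← Complex.normSq_eq_norm_sq,
      Complex.normSq_apply, Complex.normSq_apply, Complex.normSq_apply]
    simp only [Complex.mul_re, Complex.sub_re, Complex.sub_im, Complex.conj_re, Complex.conj_im]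
    ring
  have hi12 : CircleIntegrable (fun l => ‖h 0‖ ^ 2 +
      2 * ((starRingEnd ℂ) (h 0) * (h l - h 0)).re) 0 r := (circleIntegrable_const _ _ _).add hi2
  rw [hsplit, Real.circleAverage_fun_add hi12 hi3,
    Real.circleAverage_fun_add (circleIntegrable_const _ _ _) hi2, hre, Real.circleAverage_const,
    add_zero]

theorem ft_avg_lower {h : ℂ → ℂ} {r : ℝ} (hr : 0 < r) (hh : DiffContOnCl ℂ h (ball 0 r)) {c : ℝ}
    (hc : ∀ l : ℂ, ‖l‖ = r → c ≤ ‖h l - h 0‖ ^ 2) :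
    ‖h 0‖ ^ 2 + c ≤ Real.circleAverage (fun l => ‖h l‖ ^ 2) 0 r := by
  rw [ft_avg_sq hr hh]
  have hcont := ft_cont hr hh
  have h1 : Real.circleAverage (fun _ => c) (0 : ℂ) r ≤
      Real.circleAverage (fun l => ‖h l - h 0‖ ^ 2) 0 r := by
    apply Real.circleAverage_mono (circleIntegrable_const _ _ _)
      (ContinuousOn.circleIntegrable hr.le (by fun_prop))
    intro l hl
    rw [abs_of_pos hr, mem_sphere_zero_iff_norm] at hl
    exact hc l hl
  rw [Real.circleAverage_const] at h1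
  linarith

theorem ft_main {g1 g2 : ℂ → ℂ} {r : ℝ} (hr : 0 < r) (h1 : DiffContOnCl ℂ g1 (ball 0 r))
    (h2 : DiffContOnCl ℂ g2 (ball 0 r)) {c1 c2 : ℝ}
    (hc1 : ∀ l : ℂ, ‖l‖ = r → c1 ≤ ‖g1 l ^ 4 - g1 0 ^ 4‖ ^ 2)
    (hc2 : ∀ l : ℂ, ‖l‖ = r → c2 ≤ ‖g2 l - g2 0‖ ^ 2) :
    rr (g1 0, g2 0) + c1 / 16 + c2 ≤ Real.circleAverage (fun l => rr (g1 l, g2 l)) 0 r := by
  have k1 := ft_cont hr h1
  have k2 := ft_cont hr h2
  have h4 : DiffContOnCl ℂ (fun l => g1 l ^ 4) (ball 0 r) :=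
    ⟨h1.differentiableOn.pow 4, h1.continuousOn.pow 4⟩
  have a1 := ft_avg_lower hr h4 hc1
  have a2 := ft_avg_lower hr h2 hc2
  have a3 := submean (a := 0) (b := 15 / 16) (c := 1) (e := 15 / 7) le_rfl
    (by rw [abs_of_pos (by norm_num)]; norm_num) zero_le_one hr h1
  have a4 : Real.circleAverage (fun l => (g2 l).re) 0 r = (g2 0).re := by
    have hi : CircleIntegrable g2 0 r := ContinuousOn.circleIntegrable hr.le k2
    have h5 := Complex.reCLM.circleAverage_comp_comm hi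
    have h6 : DiffContOnCl ℂ g2 (ball 0 |r|) := by rw [abs_of_pos hr]; exact h2
    rw [h6.circleAverage] at h5
    exact h5
  have hsplit : (fun l => rr (g1 l, g2 l)) = fun l => (((g2 l).re + ‖g2 l‖ ^ 2) +
      QQ 0 (15 / 16) 1 (15 / 7) (g1 l)) + (1 / 16 : ℝ) • ‖g1 l ^ 4‖ ^ 2 := by
    funext l
    unfold rr KP QQ
    rw [norm_pow, smul_eq_mul]
    ring
  have hval : rr (g1 0, g2 0) = (((g2 0).re + ‖g2 0‖ ^ 2) +
      QQ 0 (15 / 16) 1 (15 / 7) (g1 0)) + (1 / 16 : ℝ) * ‖g1 0 ^ 4‖ ^ 2 := congrFun hsplit 0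
  have i1 : CircleIntegrable (fun l => (g2 l).re) 0 r :=
    ContinuousOn.circleIntegrable hr.le (Complex.continuous_re.comp_continuousOn k2)
  have i2 : CircleIntegrable (fun l => ‖g2 l‖ ^ 2) 0 r :=
    ContinuousOn.circleIntegrable hr.le (by fun_prop)
  have i3 : CircleIntegrable (fun l => QQ 0 (15 / 16) 1 (15 / 7) (g1 l)) 0 r := by
    apply ContinuousOn.circleIntegrable hr.le
    unfold QQ
    have : ContinuousOn (fun l => (g1 l ^ 6).re) (sphere 0 r) :=
      Complex.continuous_re.comp_continuousOn (k1.pow 6)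
    fun_prop
  have i4 : CircleIntegrable (fun l => (1 / 16 : ℝ) • ‖g1 l ^ 4‖ ^ 2) 0 r := by
    apply ContinuousOn.circleIntegrable hr.le
    simp only [smul_eq_mul]
    fun_prop
  have i12 : CircleIntegrable (fun l => (g2 l).re + ‖g2 l‖ ^ 2) 0 r := i1.add i2
  have i123 : CircleIntegrable (fun l => ((g2 l).re + ‖g2 l‖ ^ 2) +
      QQ 0 (15 / 16) 1 (15 / 7) (g1 l)) 0 r := i12.add i3
  rw [hsplit, Real.circleAverage_fun_add i123 i4,
    Real.circleAverage_fun_add i12 i3, Real.circleAverage_fun_add i1 i2,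
    Real.circleAverage_fun_smul, a4, smul_eq_mul, hval]
  linarith

theorem ft_compare {c C : ℝ} (hc : 0 < c) {J k : ℕ} {r0 : ℝ} (hr0 : 0 < r0)
    (h : ∀ ε, 0 < ε → ε < r0 → c * ε ^ J ≤ C * ε ^ k) : k ≤ J := by
  by_contra hcon
  push Not at hcon
  set D : ℝ := |C| + 1 with hD
  have hDp : 0 < D := by positivity
  set ε : ℝ := min (r0 / 2) (min 1 (c / (2 * D))) with hε
  have hε0 : 0 < ε := by positivity
  have hε1 : ε < r0 := lt_of_le_of_lt (min_le_left _ _) (by linarith)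
  have hε2 : ε ≤ 1 := (min_le_right _ _).trans (min_le_left _ _)
  have hε3 : ε ≤ c / (2 * D) := (min_le_right _ _).trans (min_le_right _ _)
  have h1 := h ε hε0 hε1
  have h2 : ε ^ k ≤ ε ^ (J + 1) := pow_le_pow_of_le_one hε0.le hε2 (by omega)
  have h3 : C * ε ^ k ≤ D * ε ^ (J + 1) := by
    calc C * ε ^ k ≤ D * ε ^ k :=
          mul_le_mul_of_nonneg_right (by rw [hD]; linarith [le_abs_self C]) (by positivity)
      _ ≤ D * ε ^ (J + 1) := mul_le_mul_of_nonneg_left h2 hDp.le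
  have h4 : c * ε ^ J ≤ (D * ε) * ε ^ J := by
    calc c * ε ^ J ≤ D * ε ^ (J + 1) := h1.trans h3
      _ = _ := by rw [pow_succ]; ring
  have h5 : c ≤ D * ε := le_of_mul_le_mul_right h4 (by positivity)
  have h6 : D * ε ≤ c / 2 := by
    calc D * ε ≤ D * (c / (2 * D)) := mul_le_mul_of_nonneg_left hε3 hDp.le
      _ = c / 2 := by field_simp
  linarith

theorem ft_pow4 {g : ℂ → ℂ} (hg : AnalyticAt ℂ g 0) {n : ℕ} {c : ℝ} (hc : 0 < c)
    (h : ∀ᶠ l in 𝓝 (0 : ℂ), c * ‖l‖ ^ n ≤ ‖g l - g 0‖) :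
    ∃ c' > 0, ∀ᶠ l in 𝓝 (0 : ℂ), c' * ‖l‖ ^ (4 * n) ≤ ‖g l ^ 4 - g 0 ^ 4‖ := by
  by_cases h0 : g 0 = 0
  · refine ⟨c ^ 4, by positivity, ?_⟩
    filter_upwards [h] with l hl
    rw [h0, sub_zero] at hl
    rw [h0, zero_pow (by norm_num), sub_zero, norm_pow]
    calc c ^ 4 * ‖l‖ ^ (4 * n) = (c * ‖l‖ ^ n) ^ 4 := by rw [mul_pow, ← pow_mul, mul_comm 4 n]
      _ ≤ ‖g l‖ ^ 4 := pow_le_pow_left₀ (by positivity) hl 4
  · have hb : 0 < ‖g 0‖ := norm_pos_iff.mpr h0
    have hcont : Tendsto (fun l => ‖g l ^ 3 + g l ^ 2 * g 0 + g l * g 0 ^ 2 + g 0 ^ 3‖) (𝓝 0)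
        (𝓝 ‖g 0 ^ 3 + g 0 ^ 2 * g 0 + g 0 * g 0 ^ 2 + g 0 ^ 3‖) := by
      have hgc : Tendsto g (𝓝 0) (𝓝 (g 0)) := hg.continuousAt
      exact ((((hgc.pow 3).add ((hgc.pow 2).mul_const _)).add (hgc.mul_const _)).add
        tendsto_const_nhds).norm
    have hv : ‖g 0 ^ 3 + g 0 ^ 2 * g 0 + g 0 * g 0 ^ 2 + g 0 ^ 3‖ = 4 * ‖g 0‖ ^ 3 := by
      have : g 0 ^ 3 + g 0 ^ 2 * g 0 + g 0 * g 0 ^ 2 + g 0 ^ 3 = 4 * g 0 ^ 3 := by ring
      rw [this, norm_mul, norm_pow]
      norm_num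
    rw [hv] at hcont
    have hev : ∀ᶠ l in 𝓝 (0 : ℂ), ‖g 0‖ ^ 3 < ‖g l ^ 3 + g l ^ 2 * g 0 + g l * g 0 ^ 2 + g 0 ^ 3‖ :=
      hcont.eventually_const_lt (by have : 0 < ‖g 0‖ ^ 3 := by positivity
                                    linarith)
    refine ⟨c * ‖g 0‖ ^ 3, by positivity, ?_⟩
    filter_upwards [h, hev, ball_mem_nhds (0 : ℂ) one_pos] with l h1 h2 h3
    rw [mem_ball_zero_iff] at h3
    have e : g l ^ 4 - g 0 ^ 4 = (g l - g 0) * (g l ^ 3 + g l ^ 2 * g 0 + g l * g 0 ^ 2 + g 0 ^ 3) := by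
      ring
    rw [e, norm_mul]
    calc c * ‖g 0‖ ^ 3 * ‖l‖ ^ (4 * n) ≤ c * ‖g 0‖ ^ 3 * ‖l‖ ^ n :=
          mul_le_mul_of_nonneg_left (pow_le_pow_of_le_one (norm_nonneg _) h3.le (by omega))
            (by positivity)
      _ = (c * ‖l‖ ^ n) * ‖g 0‖ ^ 3 := by ring
      _ ≤ _ := mul_le_mul h1 h2.le (by positivity) (norm_nonneg _)

/-- analytic at zero implies differentiable and continuous on small closed discs -/
theorem ft_diff {g : ℂ → ℂ} (hg : AnalyticAt ℂ g 0) :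
    ∃ r0 > 0, ∀ r, 0 < r → r < r0 → DiffContOnCl ℂ g (ball 0 r) := by
  obtain ⟨r0, hr0, hball⟩ := Metric.eventually_nhds_iff_ball.mp hg.eventually_analyticAt
  refine ⟨r0, hr0, fun r _ hlt => ?_⟩
  have hd : DifferentiableOn ℂ g (ball 0 r0) := fun x hx =>
    (hball x hx).differentiableAt.differentiableWithinAt
  exact hd.diffContOnCl_ball (closedBall_subset_ball hlt)

theorem Om_finiteType : ∀ p ∈ frontier Om, IsFiniteTypeAt Om p := by
  intro p hp
  have hrp := ft_rr_zero hp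
  have hgrad := ft_grad hrp
  refine ⟨{x | fderiv ℝ rr x ≠ 0}, rr, ⟨?_, hgrad, ft_rr_contDiff.contDiffOn, fun x hx => hx, hrp,
    fun x _ => Iff.rfl⟩, 8, ?_⟩
  · have hc : Continuous (fderiv ℝ rr) := ft_rr_contDiff.continuous_fderiv (by simp)
    exact isOpen_ne.preimage hc
  intro γ hγ hγ0 m _ hnot k hk
  have hg1 : AnalyticAt ℂ (fun l => (γ l).1) 0 := analyticAt_fst.comp hγ
  have hg2 : AnalyticAt ℂ (fun l => (γ l).2) 0 := analyticAt_snd.comp hγ
  obtain ⟨r1, hr1, hd1⟩ := ft_diff hg1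
  obtain ⟨r2, hr2, hd2⟩ := ft_diff hg2
  obtain ⟨C, hC⟩ := hk.bound
  obtain ⟨r3, hr3, hb3⟩ := Metric.eventually_nhds_iff_ball.mp hC
  have hcont : ∀ r, 0 < r → r < min r1 (min r2 r3) →
      Real.circleAverage (fun l => rr ((γ l).1, (γ l).2)) 0 r ≤ C * r ^ k := by
    intro r hr hlt
    have l1 : r < r1 := lt_of_lt_of_le hlt (min_le_left _ _)
    have l2 : r < r2 := lt_of_lt_of_le hlt ((min_le_right _ _).trans (min_le_left _ _))
    have l3 : r < r3 := lt_of_lt_of_le hlt ((min_le_right _ _).trans (min_le_right _ _))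
    apply Real.circleAverage_mono_on_of_le_circle
    · apply ContinuousOn.circleIntegrable hr.le
      have hp : ContinuousOn (fun l => ((γ l).1, (γ l).2)) (sphere (0 : ℂ) r) :=
        (ft_cont hr (hd1 r hr l1)).prodMk (ft_cont hr (hd2 r hr l2))
      exact ft_rr_contDiff.continuous.comp_continuousOn hp
    · intro l hl
      rw [abs_of_pos hr, mem_sphere_zero_iff_norm] at hl
      have h1 := hb3 l (by rw [mem_ball_zero_iff, hl]; exact l3)
      rw [norm_pow, norm_norm, hl] at h1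
      exact (le_abs_self _).trans h1
  have hrr0 : rr ((γ 0).1, (γ 0).2) = 0 := by rw [hγ0]; exact hrp
  have hcases : ¬ ((fun l => (γ l).1 - (γ 0).1) =O[𝓝 0] fun l : ℂ => l ^ (m + 1)) ∨
      ¬ ((fun l => (γ l).2 - (γ 0).2) =O[𝓝 0] fun l : ℂ => l ^ (m + 1)) := by
    by_contra hcon
    push Not at hcon
    apply hnot
    have h1 := hcon.1.prod_left hcon.2
    refine h1.congr_left (fun l => ?_)
    rw [hγ0]
    rfl
  rcases hcases with hc | hc
  · have han : AnalyticAt ℂ (fun l => (γ l).1 - (γ 0).1) 0 := hg1.sub analyticAt_const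
    obtain ⟨n, hn, c, hcpos, hlow⟩ := ft_order han hc
    obtain ⟨c', hc'pos, hlow'⟩ := ft_pow4 hg1 hcpos hlow
    obtain ⟨r4, hr4, hb4⟩ := Metric.eventually_nhds_iff_ball.mp hlow'
    have hk8 : k ≤ 8 * n := by
      apply ft_compare (c := c' ^ 2 / 16) (C := C) (by positivity)
        (r0 := min (min r1 (min r2 r3)) r4) (by positivity)
      intro ε hε hεlt
      have l0 : ε < min r1 (min r2 r3) := lt_of_lt_of_le hεlt (min_le_left _ _)
      have l1 : ε < r1 := lt_of_lt_of_le l0 (min_le_left _ _)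
      have l2 : ε < r2 := lt_of_lt_of_le l0 ((min_le_right _ _).trans (min_le_left _ _))
      have l4 : ε < r4 := lt_of_lt_of_le hεlt (min_le_right _ _)
      have h1 := ft_main hε (hd1 ε hε l1) (hd2 ε hε l2) (c1 := (c' * ε ^ (4 * n)) ^ 2) (c2 := 0)
        (fun l hl => by
          have h2 := hb4 l (by rw [mem_ball_zero_iff, hl]; exact l4)
          rw [hl] at h2
          exact pow_le_pow_left₀ (by positivity) h2 2) (fun l _ => by positivity)
      have h2 := hcont ε hε l0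
      rw [hrr0] at h1
      calc c' ^ 2 / 16 * ε ^ (8 * n) = 0 + (c' * ε ^ (4 * n)) ^ 2 / 16 + 0 := by
            rw [mul_pow, ← pow_mul]
            have : 4 * n * 2 = 8 * n := by ring
            rw [this]; ring
        _ ≤ _ := h1.trans h2
    calc k ≤ 8 * n := hk8
      _ ≤ 8 * m := by omega
  · have han : AnalyticAt ℂ (fun l => (γ l).2 - (γ 0).2) 0 := hg2.sub analyticAt_const
    obtain ⟨n, hn, c, hcpos, hlow⟩ := ft_order han hc
    obtain ⟨r4, hr4, hb4⟩ := Metric.eventually_nhds_iff_ball.mp hlow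
    have hk2 : k ≤ 2 * n := by
      apply ft_compare (c := c ^ 2) (C := C) (by positivity)
        (r0 := min (min r1 (min r2 r3)) r4) (by positivity)
      intro ε hε hεlt
      have l0 : ε < min r1 (min r2 r3) := lt_of_lt_of_le hεlt (min_le_left _ _)
      have l1 : ε < r1 := lt_of_lt_of_le l0 (min_le_left _ _)
      have l2 : ε < r2 := lt_of_lt_of_le l0 ((min_le_right _ _).trans (min_le_left _ _))
      have l4 : ε < r4 := lt_of_lt_of_le hεlt (min_le_right _ _)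
      have h1 := ft_main hε (hd1 ε hε l1) (hd2 ε hε l2) (c1 := 0) (c2 := (c * ε ^ n) ^ 2)
        (fun l _ => by positivity) (fun l hl => by
          have h2 := hb4 l (by rw [mem_ball_zero_iff, hl]; exact l4)
          rw [hl] at h2
          exact pow_le_pow_left₀ (by positivity) h2 2)
      have h2 := hcont ε hε l0
      rw [hrr0] at h1
      calc c ^ 2 * ε ^ (2 * n) = 0 + 0 / 16 + (c * ε ^ n) ^ 2 := by
            rw [mul_pow, ← pow_mul, mul_comm n 2]; ring
        _ ≤ _ := h1.trans h2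
    calc k ≤ 2 * n := hk2
      _ ≤ 8 * m := by omega


/-- There is a bounded pseudoconvex domain of finite type in `ℂ²` which is not locally
convexifiable at some boundary point. -/
theorem result :
    ∃ Ω : Set (ℂ × ℂ), IsOpen Ω ∧ IsConnected Ω ∧ Bornology.IsBounded Ω ∧ IsPseudoconvex Ω ∧
      (∀ p ∈ frontier Ω, IsFiniteTypeAt Ω p) ∧
      ∃ p ∈ frontier Ω, ¬ IsLocallyConvexifiableAt Ω p := by
  refine ⟨Om, Om_isOpen, Om_isConnected, Om_isBounded, Om_pseudoconvex, Om_finiteType, _,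
    zero_mem_frontier, ?_⟩
  rintro ⟨U, hU, h0, Φ, hΦ, hinj, -, hconv⟩
  exact not_convexifiable hU h0 hΦ hinj hconv

end Pool.Agent.Results.MP_08f711_an.NotConvexifiable
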